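import Mathlib

/-!
# Prékopa–Leindler and Brunn–Minkowski inequalities
-/

open MeasureTheory Set Filter
open scoped ENNReal Pointwise Topology

namespace Pool.Agent.Lib.H31

/-! ### dimension one -/

/-- One-dimensional Brunn–Minkowski inequality. -/
theorem volume_add_le {A B C : Set ℝ} (hA : MeasurableSet A) (hB : MeasurableSet B)
    (hAne : A.Nonempty) (hBne : B.Nonempty) (hC : ∀ x ∈ A, ∀ y ∈ B, x + y ∈ C) :
    volume A + volume B ≤ volume C := by
  obtain ⟨a₀, ha₀⟩ := hAne
  obtain ⟨b₀, hb₀⟩ := hBne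
  have key : ∀ K L : Set ℝ, IsCompact K → IsCompact L → K.Nonempty → L.Nonempty → K ⊆ A → L ⊆ B →
      volume K + volume L ≤ volume C := by
    intro K L hK hL hKne hLne hKA hLB
    obtain ⟨a, haK, ha⟩ := hK.exists_isGreatest hKne
    obtain ⟨b, hbL, hb⟩ := hL.exists_isLeast hLne
    have h1 : volume ((fun x => x + b) '' K) = volume K := by
      rw [image_add_right]; exact measure_preimage_add_right _ _ _
    have h2 : volume ((fun x => a + x) '' L) = volume L := by
      rw [image_add_left]; exact measure_preimage_add _ _ _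
    have h3 : AEDisjoint volume ((fun x => x + b) '' K) ((fun x => a + x) '' L) := by
      have : ((fun x => x + b) '' K) ∩ ((fun x => a + x) '' L) ⊆ {a + b} := by
        rintro _ ⟨⟨x, hx, rfl⟩, ⟨y, hy, hxy⟩⟩
        have h4 := ha hx
        have h5 := hb hy
        simp only at hxy
        rw [mem_singleton_iff]
        show x + b = a + b
        have h6 : a + y = x + b := hxy
        linarith
      exact measure_mono_null this (measure_singleton _)
    rw [← h1, ← h2, ← measure_union₀ _ h3]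
    · apply measure_mono
      rintro _ (⟨x, hx, rfl⟩ | ⟨y, hy, rfl⟩)
      · exact hC x (hKA hx) b (hLB hbL)
      · exact hC a (hKA haK) y (hLB hy)
    · exact (hL.image (by fun_prop)).measurableSet.nullMeasurableSet
  rw [hA.measure_eq_iSup_isCompact, hB.measure_eq_iSup_isCompact]
  have hne1 : Nonempty {K : Set ℝ // K ⊆ A ∧ IsCompact K} := ⟨⟨∅, empty_subset _, isCompact_empty⟩⟩
  simp_rw [iSup_and']
  rw [iSup_subtype', iSup_subtype']
  have : Nonempty {K : Set ℝ // K ⊆ A ∧ IsCompact K} := ⟨⟨∅, empty_subset _, isCompact_empty⟩⟩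
  have : Nonempty {K : Set ℝ // K ⊆ B ∧ IsCompact K} := ⟨⟨∅, empty_subset _, isCompact_empty⟩⟩
  apply ENNReal.iSup_add_iSup_le
  rintro ⟨K, hKA, hK⟩ ⟨L, hLB, hL⟩
  simp only
  refine le_trans (add_le_add (measure_mono (subset_insert a₀ K)) (measure_mono (subset_insert b₀ L)))
    (key _ _ (hK.insert a₀) (hL.insert b₀) (insert_nonempty _ _) (insert_nonempty _ _)
      (insert_subset ha₀ hKA) (insert_subset hb₀ hLB))

theorem volume_combo_le {A B C : Set ℝ} {a b : ℝ} (ha : 0 < a) (hb : 0 < b)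
    (hA : MeasurableSet A) (hB : MeasurableSet B)
    (hAne : A.Nonempty) (hBne : B.Nonempty) (hC : ∀ x ∈ A, ∀ y ∈ B, a * x + b * y ∈ C) :
    ENNReal.ofReal a * volume A + ENNReal.ofReal b * volume B ≤ volume C := by
  have h1 : volume (a • A) = ENNReal.ofReal a * volume A := by
    rw [Measure.addHaar_smul, Module.finrank_self, pow_one, abs_of_pos ha]
  have h2 : volume (b • B) = ENNReal.ofReal b * volume B := by
    rw [Measure.addHaar_smul, Module.finrank_self, pow_one, abs_of_pos hb]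
  rw [← h1, ← h2]
  apply volume_add_le (hA.const_smul₀ a) (hB.const_smul₀ b) hAne.smul_set hBne.smul_set
  rintro _ ⟨x, hx, rfl⟩ _ ⟨y, hy, rfl⟩
  exact hC x hx y hy

/-- One-dimensional Prékopa–Leindler inequality, normalised additive form. -/
theorem pl_one_normalized {f g h : ℝ → ℝ≥0∞} (hf : Measurable f) (hg : Measurable g)
    (hh : Measurable h) {a b : ℝ} (ha : 0 < a) (hb : 0 < b) (hab : a + b = 1)
    (hle : ∀ x y, f x ^ a * g y ^ b ≤ h (a * x + b * y)) (hf1 : ⨆ x, f x = 1)
    (hg1 : ⨆ x, g x = 1) :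
    ENNReal.ofReal a * (∫⁻ x, f x) + ENNReal.ofReal b * (∫⁻ x, g x) ≤ ∫⁻ x, h x := by
  -- layer cake for functions bounded by one
  have cake : ∀ u : ℝ → ℝ≥0∞, Measurable u → (∀ x, u x ≤ 1) →
      ∫⁻ x, u x = ∫⁻ t in Ioo (0 : ℝ) 1, volume {x | ENNReal.ofReal t < u x} := by
    intro u hu hu1
    have hfin : ∀ x, u x ≠ ⊤ := fun x => ((hu1 x).trans_lt ENNReal.one_lt_top).ne
    have h1 : ∀ x, u x = ENNReal.ofReal ((u x).toReal) := fun x =>
      (ENNReal.ofReal_toReal (hfin x)).symm
    have h2 := lintegral_eq_lintegral_meas_lt (volume : Measure ℝ) (f := fun x => (u x).toReal)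
      (Eventually.of_forall fun x => ENNReal.toReal_nonneg) hu.ennreal_toReal.aemeasurable
    calc ∫⁻ x, u x = ∫⁻ x, ENNReal.ofReal ((u x).toReal) := lintegral_congr h1
      _ = ∫⁻ t in Ioi (0 : ℝ), volume {x | t < (u x).toReal} := h2
      _ = ∫⁻ t in Ioo (0 : ℝ) 1, volume {x | t < (u x).toReal} := by
          have h3 : Ioi (0 : ℝ) = Ioo 0 1 ∪ Ici 1 := by
            ext t; simp only [mem_Ioi, mem_union, mem_Ioo, mem_Ici]
            constructor
            · intro ht
              rcases lt_or_ge t 1 with h | h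
              · exact Or.inl ⟨ht, h⟩
              · exact Or.inr h
            · rintro (h | h) <;> linarith [h]
          rw [h3, lintegral_union measurableSet_Ici]
          · have h4 : ∫⁻ t in Ici (1 : ℝ), volume {x | t < (u x).toReal} = 0 := by
              have h6 : ∀ t ∈ Ici (1 : ℝ), volume {x | t < (u x).toReal} = (0 : ℝ≥0∞) := by
                intro t ht
                have : {x | t < (u x).toReal} = ∅ := by
                  ext x
                  simp only [mem_ofPred_eq, mem_empty_iff_false, iff_false, not_lt]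
                  have h5 : (u x).toReal ≤ 1 := ENNReal.toReal_le_of_le_ofReal zero_le_one
                    (by simpa using hu1 x)
                  exact h5.trans ht
                rw [this, measure_empty]
              rw [setLIntegral_congr_fun measurableSet_Ici h6, lintegral_zero]
            rw [h4, add_zero]
          · rw [Set.disjoint_left]
            rintro t ⟨_, h⟩ h'
            exact absurd h (not_lt.mpr h')
      _ = ∫⁻ t in Ioo (0 : ℝ) 1, volume {x | ENNReal.ofReal t < u x} := by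
          apply setLIntegral_congr_fun measurableSet_Ioo
          intro t ht
          simp only
          congr 1
          ext x
          simp only [mem_ofPred_eq]
          rw [ENNReal.ofReal_lt_iff_lt_toReal ht.1.le (hfin x)]
  have hfle : ∀ x, f x ≤ 1 := fun x => hf1 ▸ le_iSup f x
  have hgle : ∀ x, g x ≤ 1 := fun x => hg1 ▸ le_iSup g x
  have hhmin : ∫⁻ x, min (h x) 1 ≤ ∫⁻ x, h x := lintegral_mono fun x => min_le_left _ _
  refine le_trans ?_ hhmin
  have hmeas : Measurable (fun t : ℝ => volume {x | ENNReal.ofReal t < f x}) := by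
    apply Antitone.measurable
    intro s t hst
    apply measure_mono
    intro x hx
    exact lt_of_le_of_lt (ENNReal.ofReal_le_ofReal hst) hx
  have e1 : ∫⁻ x, f x = _ := cake f hf hfle
  have e2 : ∫⁻ x, g x = _ := cake g hg hgle
  have e3 : ∫⁻ x, min (h x) 1 = _ := cake _ (hh.min measurable_const) (fun x => min_le_right _ _)
  rw [e1, e2, e3, ← lintegral_const_mul _ hmeas, ← lintegral_const_mul', ← lintegral_add_left (hmeas.const_mul _)]
  · apply setLIntegral_mono' measurableSet_Ioo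
    intro t ht
    have htpos : ENNReal.ofReal t ≠ 0 := by
      simpa using ht.1
    have hne : ∀ u : ℝ → ℝ≥0∞, ⨆ x, u x = 1 → {x | ENNReal.ofReal t < u x}.Nonempty := by
      intro u hu
      have h1 : ENNReal.ofReal t < ⨆ x, u x := by
        rw [hu]; simpa using ht.2
      obtain ⟨x, hx⟩ := lt_iSup_iff.mp h1
      exact ⟨x, hx⟩
    apply volume_combo_le ha hb (measurableSet_lt measurable_const hf)
      (measurableSet_lt measurable_const hg) (hne f hf1) (hne g hg1)
    intro x hx y hy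
    have hx' : ENNReal.ofReal t < f x := hx
    have hy' : ENNReal.ofReal t < g y := hy
    have h1 : ENNReal.ofReal t = ENNReal.ofReal t ^ a * ENNReal.ofReal t ^ b := by
      rw [← ENNReal.rpow_add a b htpos ENNReal.ofReal_ne_top, hab, ENNReal.rpow_one]
    have h2 : ENNReal.ofReal t < h (a * x + b * y) := by
      refine lt_of_lt_of_le ?_ (hle x y)
      rw [h1]
      exact ENNReal.mul_lt_mul (ENNReal.rpow_lt_rpow hx' ha) (ENNReal.rpow_lt_rpow hy' hb)
    have h3 : ENNReal.ofReal t < 1 := by simpa using ht.2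
    exact lt_min h2 h3
  · exact ENNReal.ofReal_ne_top

theorem weighted_amgm (x y : ℝ≥0∞) {a b : ℝ} (ha : 0 < a) (hb : 0 < b) (hab : a + b = 1) :
    x ^ a * y ^ b ≤ ENNReal.ofReal a * x + ENNReal.ofReal b * y := by
  have hpq : (1 / a).HolderConjugate (1 / b) := by
    rw [one_div, one_div]
    refine ⟨?_, ?_, ?_⟩
    · rw [inv_inv, inv_inv, inv_one]; exact hab
    · positivity
    · positivity
  have h := ENNReal.young_inequality (x ^ a) (y ^ b) hpq
  rw [← ENNReal.rpow_mul, ← ENNReal.rpow_mul, mul_one_div_cancel ha.ne', mul_one_div_cancel hb.ne',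
    ENNReal.rpow_one, ENNReal.rpow_one, one_div, one_div, ENNReal.ofReal_inv_of_pos ha,
    ENNReal.ofReal_inv_of_pos hb, div_eq_mul_inv, div_eq_mul_inv, inv_inv, inv_inv, mul_comm x,
    mul_comm y] at h
  exact h

/-- One-dimensional Prékopa–Leindler inequality for bounded functions. -/
theorem pl_one_bdd {f g h : ℝ → ℝ≥0∞} (hf : Measurable f) (hg : Measurable g)
    (hh : Measurable h) {a b : ℝ} (ha : 0 < a) (hb : 0 < b) (hab : a + b = 1)
    (hle : ∀ x y, f x ^ a * g y ^ b ≤ h (a * x + b * y)) (hf1 : ⨆ x, f x ≠ ⊤)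
    (hg1 : ⨆ x, g x ≠ ⊤) :
    (∫⁻ x, f x) ^ a * (∫⁻ x, g x) ^ b ≤ ∫⁻ x, h x := by
  set A := ⨆ x, f x with hA
  set B := ⨆ x, g x with hB
  by_cases hA0 : A = 0
  · have : ∀ x, f x = 0 := fun x => le_antisymm (hA0 ▸ le_iSup f x) bot_le
    simp [this, ENNReal.zero_rpow_of_pos ha]
  by_cases hB0 : B = 0
  · have : ∀ x, g x = 0 := fun x => le_antisymm (hB0 ▸ le_iSup g x) bot_le
    simp [this, ENNReal.zero_rpow_of_pos hb]
  set D := A ^ a * B ^ b with hD
  have hD0 : D ≠ 0 := by
    rw [hD]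
    apply mul_ne_zero
    · exact (ENNReal.rpow_pos (pos_iff_ne_zero.mpr hA0) hf1).ne'
    · exact (ENNReal.rpow_pos (pos_iff_ne_zero.mpr hB0) hg1).ne'
  have hDt : D ≠ ⊤ := by
    rw [hD]
    exact ENNReal.mul_ne_top (ENNReal.rpow_ne_top_of_nonneg ha.le hf1)
      (ENNReal.rpow_ne_top_of_nonneg hb.le hg1)
  have key := pl_one_normalized (f := fun x => A⁻¹ * f x) (g := fun x => B⁻¹ * g x)
    (h := fun x => D⁻¹ * h x) (hf.const_mul _) (hg.const_mul _) (hh.const_mul _) ha hb hab
    (by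
      intro x y
      rw [ENNReal.mul_rpow_of_nonneg _ _ ha.le, ENNReal.mul_rpow_of_nonneg _ _ hb.le,
        ENNReal.inv_rpow, ENNReal.inv_rpow, hD, ENNReal.mul_inv
        (Or.inr (ENNReal.rpow_ne_top_of_nonneg hb.le hg1))
        (Or.inl (ENNReal.rpow_ne_top_of_nonneg ha.le hf1))]
      calc (A ^ a)⁻¹ * f x ^ a * ((B ^ b)⁻¹ * g y ^ b) =
          (A ^ a)⁻¹ * (B ^ b)⁻¹ * (f x ^ a * g y ^ b) := by ring
        _ ≤ (A ^ a)⁻¹ * (B ^ b)⁻¹ * h (a * x + b * y) := by gcongr; exact hle x y)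
    (by rw [← ENNReal.mul_iSup]; exact ENNReal.inv_mul_cancel hA0 hf1)
    (by rw [← ENNReal.mul_iSup]; exact ENNReal.inv_mul_cancel hB0 hg1)
  rw [lintegral_const_mul _ hf, lintegral_const_mul _ hg, lintegral_const_mul _ hh] at key
  have h1 := (weighted_amgm (A⁻¹ * ∫⁻ x, f x) (B⁻¹ * ∫⁻ x, g x) ha hb hab).trans key
  rw [ENNReal.mul_rpow_of_nonneg _ _ ha.le, ENNReal.mul_rpow_of_nonneg _ _ hb.le,
        ENNReal.inv_rpow, ENNReal.inv_rpow] at h1
  have h2 : D⁻¹ = (A ^ a)⁻¹ * (B ^ b)⁻¹ := by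
    rw [hD, ENNReal.mul_inv (Or.inr (ENNReal.rpow_ne_top_of_nonneg hb.le hg1))
        (Or.inl (ENNReal.rpow_ne_top_of_nonneg ha.le hf1))]
  have h3 : D⁻¹ * ((∫⁻ x, f x) ^ a * (∫⁻ x, g x) ^ b) ≤ D⁻¹ * ∫⁻ x, h x := by
    calc D⁻¹ * ((∫⁻ x, f x) ^ a * (∫⁻ x, g x) ^ b) =
        (A ^ a)⁻¹ * (∫⁻ x, f x) ^ a * ((B ^ b)⁻¹ * (∫⁻ x, g x) ^ b) := by rw [h2]; ring
      _ ≤ _ := h1
  rwa [ENNReal.mul_le_mul_iff_right (ENNReal.inv_ne_zero.mpr hDt) (ENNReal.inv_ne_top.mpr hD0)] at h3

/-- One-dimensional Prékopa–Leindler inequality. -/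
theorem pl_one {f g h : ℝ → ℝ≥0∞} (hf : Measurable f) (hg : Measurable g)
    (hh : Measurable h) {a b : ℝ} (ha : 0 < a) (hb : 0 < b) (hab : a + b = 1)
    (hle : ∀ x y, f x ^ a * g y ^ b ≤ h (a * x + b * y)) :
    (∫⁻ x, f x) ^ a * (∫⁻ x, g x) ^ b ≤ ∫⁻ x, h x := by
  have hn : ∀ n : ℕ, (∫⁻ x, min (f x) n) ^ a * (∫⁻ x, min (g x) n) ^ b ≤ ∫⁻ x, h x := by
    intro n
    apply pl_one_bdd (hf.min measurable_const) (hg.min measurable_const) hh ha hb hab
    · intro x y
      refine le_trans ?_ (hle x y)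
      gcongr
      · exact min_le_left _ _
      · exact min_le_left _ _
    · exact ((iSup_le fun x => min_le_right _ _).trans_lt (ENNReal.natCast_lt_top n)).ne
    · exact ((iSup_le fun x => min_le_right _ _).trans_lt (ENNReal.natCast_lt_top n)).ne
  have hlim : ∀ u : ℝ → ℝ≥0∞, Measurable u →
      Tendsto (fun n : ℕ => ∫⁻ x, min (u x) n) atTop (𝓝 (∫⁻ x, u x)) := by
    intro u hu
    apply lintegral_tendsto_of_tendsto_of_monotone
    · exact fun n => (hu.min measurable_const).aemeasurable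
    · refine Eventually.of_forall fun x => fun m n hmn => ?_
      exact min_le_min_left _ (by exact_mod_cast hmn)
    · refine Eventually.of_forall fun x => ?_
      have h1 : Tendsto (fun n : ℕ => min (u x) (n : ℝ≥0∞)) atTop (𝓝 (min (u x) ⊤)) :=
        (tendsto_const_nhds).min ENNReal.tendsto_nat_nhds_top
      simpa using h1
  have h1 : Tendsto (fun n : ℕ => (∫⁻ x, min (f x) n) ^ a) atTop (𝓝 ((∫⁻ x, f x) ^ a)) :=
    (ENNReal.continuous_rpow_const.tendsto _).comp (hlim f hf)
  have h2 : Tendsto (fun n : ℕ => (∫⁻ x, min (g x) n) ^ b) atTop (𝓝 ((∫⁻ x, g x) ^ b)) :=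
    (ENNReal.continuous_rpow_const.tendsto _).comp (hlim g hg)
  apply ENNReal.mul_le_of_forall_lt
  intro a' ha' b' hb'
  obtain ⟨n, hn1, hn2⟩ := ((h1.eventually (lt_mem_nhds ha')).and
    (h2.eventually (lt_mem_nhds hb'))).exists
  exact (mul_le_mul' hn1.le hn2.le).trans (hn n)

/-- Prékopa–Leindler inequality on `Fin n → ℝ`. -/
theorem prekopa_leindler (n : ℕ) {f g h : (Fin n → ℝ) → ℝ≥0∞} (hf : Measurable f)
    (hg : Measurable g) (hh : Measurable h) {a b : ℝ} (ha : 0 < a) (hb : 0 < b) (hab : a + b = 1)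
    (hle : ∀ x y, f x ^ a * g y ^ b ≤ h (a • x + b • y)) :
    (∫⁻ x, f x) ^ a * (∫⁻ x, g x) ^ b ≤ ∫⁻ x, h x := by
  induction n with
  | zero =>
    have h1 : (volume : Measure (Fin 0 → ℝ)) univ = 1 := by
      rw [volume_pi, Measure.pi_univ]; simp
    have h2 : ∀ u : (Fin 0 → ℝ) → ℝ≥0∞, ∫⁻ x, u x = u 0 := by
      intro u
      rw [lintegral_unique, h1, mul_one]
      congr 1
      exact Subsingleton.elim _ _
    rw [h2, h2, h2]
    refine (hle 0 0).trans (le_of_eq ?_)
    rw [smul_zero, smul_zero, add_zero]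
  | succ n ih =>
    have e := (volume_preserving_piFinSuccAbove (fun _ : Fin (n + 1) => ℝ) 0).symm
    have hsplit : ∀ u : (Fin (n + 1) → ℝ) → ℝ≥0∞, Measurable u →
        ∫⁻ x, u x = ∫⁻ s : ℝ, ∫⁻ y : Fin n → ℝ,
          u ((MeasurableEquiv.piFinSuccAbove (fun _ : Fin (n + 1) => ℝ) 0).symm (s, y)) := by
      intro u hu
      rw [← e.lintegral_comp_emb (MeasurableEquiv.measurableEmbedding _) u]
      exact lintegral_prod _ (hu.comp (MeasurableEquiv.measurable _)).aemeasurable
    rw [hsplit f hf, hsplit g hg, hsplit h hh]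
    have hm : ∀ u : (Fin (n + 1) → ℝ) → ℝ≥0∞, Measurable u → Measurable (fun s : ℝ =>
        ∫⁻ y : Fin n → ℝ,
          u ((MeasurableEquiv.piFinSuccAbove (fun _ : Fin (n + 1) => ℝ) 0).symm (s, y))) := by
      intro u hu
      exact (hu.comp (MeasurableEquiv.measurable _)).lintegral_prod_right'
    apply pl_one (hm f hf) (hm g hg) (hm h hh) ha hb hab
    intro s t
    apply ih
    · exact hf.comp ((MeasurableEquiv.measurable _).comp (by fun_prop))
    · exact hg.comp ((MeasurableEquiv.measurable _).comp (by fun_prop))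
    · exact hh.comp ((MeasurableEquiv.measurable _).comp (by fun_prop))
    · intro x y
      refine (hle _ _).trans (le_of_eq ?_)
      congr 1
      ext i
      refine Fin.cases ?_ (fun j => ?_) i
      · simp [MeasurableEquiv.piFinSuccAbove]
      · simp [MeasurableEquiv.piFinSuccAbove]

/-- Multiplicative Brunn–Minkowski inequality on `Fin n → ℝ`. -/
theorem brunn_minkowski_mul_pi (n : ℕ) {A B C : Set (Fin n → ℝ)} (hA : MeasurableSet A)
    (hB : MeasurableSet B) (hC : MeasurableSet C) {a b : ℝ} (ha : 0 < a) (hb : 0 < b)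
    (hab : a + b = 1) (hle : ∀ x ∈ A, ∀ y ∈ B, a • x + b • y ∈ C) :
    (volume A) ^ a * (volume B) ^ b ≤ volume C := by
  have h := prekopa_leindler n (f := A.indicator 1) (g := B.indicator 1) (h := C.indicator 1)
    (measurable_one.indicator hA) (measurable_one.indicator hB) (measurable_one.indicator hC)
    ha hb hab (by
      intro x y
      by_cases hx : x ∈ A
      · by_cases hy : y ∈ B
        · rw [indicator_of_mem hx, indicator_of_mem hy, indicator_of_mem (hle x hx y hy)]
          simp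
        · rw [indicator_of_notMem hy, ENNReal.zero_rpow_of_pos hb, mul_zero]
          exact bot_le
      · rw [indicator_of_notMem hx, ENNReal.zero_rpow_of_pos ha, zero_mul]
        exact bot_le)
  rwa [lintegral_indicator_one hA, lintegral_indicator_one hB, lintegral_indicator_one hC] at h

/-- Multiplicative Brunn–Minkowski inequality on `EuclideanSpace ℝ (Fin n)`. -/
theorem brunn_minkowski_mul {n : ℕ} {A B C : Set (EuclideanSpace ℝ (Fin n))}
    (hA : MeasurableSet A) (hB : MeasurableSet B) (hC : MeasurableSet C) {a b : ℝ} (ha : 0 < a)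
    (hb : 0 < b) (hab : a + b = 1) (hle : ∀ x ∈ A, ∀ y ∈ B, a • x + b • y ∈ C) :
    (volume A) ^ a * (volume B) ^ b ≤ volume C := by
  have e := (EuclideanSpace.volume_preserving_symm_measurableEquiv_toLp (Fin n)).symm
  have hvol : ∀ D : Set (EuclideanSpace ℝ (Fin n)), MeasurableSet D →
      volume ((MeasurableEquiv.toLp 2 (Fin n → ℝ)) ⁻¹' D) = volume D := by
    intro D hD
    exact e.measure_preimage hD.nullMeasurableSet
  rw [← hvol A hA, ← hvol B hB, ← hvol C hC]
  apply brunn_minkowski_mul_pi n (hA.preimage (MeasurableEquiv.measurable _))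
    (hB.preimage (MeasurableEquiv.measurable _)) (hC.preimage (MeasurableEquiv.measurable _))
    ha hb hab
  intro x hx y hy
  exact hle _ hx _ hy

/-- Additive Brunn–Minkowski inequality for open sets of finite measure:
`|A|^{1/d} + |B|^{1/d} ≤ |C|^{1/d}` whenever `A + B ⊆ C`. -/
theorem brunn_minkowski_add {d : ℕ} (hd : 1 ≤ d) {A B C : Set (EuclideanSpace ℝ (Fin d))}
    (hA : IsOpen A) (hB : IsOpen B) (hC : MeasurableSet C) (hAne : A.Nonempty) (hBne : B.Nonempty)
    (hAfin : volume A ≠ ⊤) (hBfin : volume B ≠ ⊤) (hCfin : volume C ≠ ⊤)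
    (hAB : ∀ x ∈ A, ∀ y ∈ B, x + y ∈ C) :
    ((volume A).toReal) ^ (1 / (d : ℝ)) + ((volume B).toReal) ^ (1 / (d : ℝ)) ≤
      ((volume C).toReal) ^ (1 / (d : ℝ)) := by
  have hd0 : (d : ℝ) ≠ 0 := by positivity
  have hA0 : 0 < (volume A).toReal := ENNReal.toReal_pos (hA.measure_pos volume hAne).ne' hAfin
  have hB0 : 0 < (volume B).toReal := ENNReal.toReal_pos (hB.measure_pos volume hBne).ne' hBfin
  set α : ℝ := ((volume A).toReal) ^ (1 / (d : ℝ)) with hα
  set β : ℝ := ((volume B).toReal) ^ (1 / (d : ℝ)) with hβ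
  have hα0 : 0 < α := Real.rpow_pos_of_pos hA0 _
  have hβ0 : 0 < β := Real.rpow_pos_of_pos hB0 _
  have hαd : α ^ d = (volume A).toReal := by
    rw [hα, ← Real.rpow_natCast, ← Real.rpow_mul hA0.le, one_div_mul_cancel hd0, Real.rpow_one]
  have hβd : β ^ d = (volume B).toReal := by
    rw [hβ, ← Real.rpow_natCast, ← Real.rpow_mul hB0.le, one_div_mul_cancel hd0, Real.rpow_one]
  have hvol : ∀ (D : Set (EuclideanSpace ℝ (Fin d))) (c : ℝ), 0 < c →
      volume ((c⁻¹ : ℝ) • D) = ENNReal.ofReal ((c ^ d)⁻¹) * volume D := by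
    intro D c hc
    rw [Measure.addHaar_smul, finrank_euclideanSpace_fin, abs_of_pos (by positivity), inv_pow]
  have h1 : volume ((α⁻¹ : ℝ) • A) = 1 := by
    rw [hvol A α hα0, hαd, ENNReal.ofReal_inv_of_pos hA0, ENNReal.ofReal_toReal hAfin]
    exact ENNReal.inv_mul_cancel (hA.measure_pos volume hAne).ne' hAfin
  have h2 : volume ((β⁻¹ : ℝ) • B) = 1 := by
    rw [hvol B β hβ0, hβd, ENNReal.ofReal_inv_of_pos hB0, ENNReal.ofReal_toReal hBfin]
    exact ENNReal.inv_mul_cancel (hB.measure_pos volume hBne).ne' hBfin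
  have hc0 : 0 < α + β := by positivity
  have key := brunn_minkowski_mul (A := (α⁻¹ : ℝ) • A) (B := (β⁻¹ : ℝ) • B)
    (C := ((α + β)⁻¹ : ℝ) • C) (hA.measurableSet.const_smul₀ _) (hB.measurableSet.const_smul₀ _)
    (hC.const_smul₀ _) (a := α / (α + β)) (b := β / (α + β)) (by positivity) (by positivity)
    (by field_simp) (by
      rintro _ ⟨x, hx, rfl⟩ _ ⟨y, hy, rfl⟩
      refine ⟨x + y, hAB x hx y hy, ?_⟩
      have e1 : α / (α + β) * α⁻¹ = (α + β)⁻¹ := by field_simp
      have e2 : β / (α + β) * β⁻¹ = (α + β)⁻¹ := by field_simp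
      change (α + β)⁻¹ • (x + y) = (α / (α + β)) • (α⁻¹ • x) + (β / (α + β)) • (β⁻¹ • y)
      rw [smul_smul, smul_smul, e1, e2, smul_add])
  rw [h1, h2, ENNReal.one_rpow, ENNReal.one_rpow, one_mul, hvol C _ hc0,
    ← ENNReal.ofReal_toReal hCfin, ← ENNReal.ofReal_mul (by positivity),
    ENNReal.one_le_ofReal, inv_mul_eq_div, one_le_div (by positivity)] at key
  calc α + β = ((α + β) ^ d) ^ (1 / (d : ℝ)) := by
        rw [← Real.rpow_natCast, ← Real.rpow_mul hc0.le, mul_one_div_cancel hd0, Real.rpow_one]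
    _ ≤ ((volume C).toReal) ^ (1 / (d : ℝ)) :=
        Real.rpow_le_rpow (by positivity) key (by positivity)

/-- Brunn–Minkowski inequality for the `ε`-thickening of a bounded open set. -/
theorem volume_thickening_ge {d : ℕ} (hd : 1 ≤ d) {A : Set (EuclideanSpace ℝ (Fin d))}
    (hA : IsOpen A) (hne : A.Nonempty) (hfin : volume A < ⊤) {ε : ℝ} (hε : 0 < ε)
    (hbd : Bornology.IsBounded A) :
    ((volume A).toReal) ^ (1 / (d : ℝ)) +
      ε * ((volume (Metric.ball (0 : EuclideanSpace ℝ (Fin d)) 1)).toReal) ^ (1 / (d : ℝ)) ≤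
      ((volume (Metric.thickening ε A)).toReal) ^ (1 / (d : ℝ)) := by
  have hd0 : (d : ℝ) ≠ 0 := by positivity
  have h := brunn_minkowski_add hd hA (Metric.isOpen_ball (x := (0 : EuclideanSpace ℝ (Fin d)))
    (ε := ε)) (Metric.isOpen_thickening (δ := ε) (E := A)).measurableSet hne
    (Metric.nonempty_ball.mpr hε) hfin.ne measure_ball_lt_top.ne
    (hbd.thickening.measure_lt_top).ne (by
      intro x hx y hy
      rw [Metric.mem_thickening_iff]
      refine ⟨x, hx, ?_⟩
      rw [dist_eq_norm, add_sub_cancel_left]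
      simpa using hy)
  have h2 : ((volume (Metric.ball (0 : EuclideanSpace ℝ (Fin d)) ε)).toReal) ^ (1 / (d : ℝ)) =
      ε * ((volume (Metric.ball (0 : EuclideanSpace ℝ (Fin d)) 1)).toReal) ^ (1 / (d : ℝ)) := by
    rw [Measure.addHaar_ball_of_pos volume _ hε, finrank_euclideanSpace_fin, ENNReal.toReal_mul,
      ENNReal.toReal_ofReal (by positivity), Real.mul_rpow (by positivity) (by positivity),
      ← Real.rpow_natCast, ← Real.rpow_mul hε.le, mul_one_div_cancel hd0, Real.rpow_one]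
  rwa [h2] at h

end Pool.Agent.Lib.H31
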