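import Mathlib
import Pool.Agent.Lib.H31.BrunnMinkowski

/-!
# An `L¹` isoperimetric (Sobolev type) inequality from the Brunn–Minkowski inequality
-/

open MeasureTheory Set Filter
open scoped ENNReal Pointwise Topology

namespace Pool.Agent.Lib.H31

theorem volume_thickening_ge_mul {d : ℕ} (hd : 1 ≤ d) {A : Set (EuclideanSpace ℝ (Fin d))}
    (hA : IsOpen A) (hbd : Bornology.IsBounded A) {r ε : ℝ} (hr : 0 < r) (hε : 0 < ε)
    (hV : (volume A).toReal ≤
      (volume (Metric.ball (0 : EuclideanSpace ℝ (Fin d)) 1)).toReal * r ^ d) :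
    ENNReal.ofReal (1 + d * ε / r) * volume A ≤ volume (Metric.thickening ε A) := by
  have hd0 : (d : ℝ) ≠ 0 := by positivity
  rcases A.eq_empty_or_nonempty with rfl | hne
  · simp
  have hAfin : volume A < ⊤ := hbd.measure_lt_top
  have hTfin : volume (Metric.thickening ε A) < ⊤ := hbd.thickening.measure_lt_top
  have hA0 : 0 < (volume A).toReal := ENNReal.toReal_pos (hA.measure_pos volume hne).ne' hAfin.ne
  set ω : ℝ := (volume (Metric.ball (0 : EuclideanSpace ℝ (Fin d)) 1)).toReal with hω
  have hω0 : 0 < ω := ENNReal.toReal_pos (Metric.measure_ball_pos volume _ one_pos).ne'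
    measure_ball_lt_top.ne
  have h := volume_thickening_ge hd hA hne hAfin hε hbd
  rw [← hω] at h
  set α : ℝ := ((volume A).toReal) ^ (1 / (d : ℝ)) with hα
  set w : ℝ := ω ^ (1 / (d : ℝ)) with hw
  have hα0 : 0 < α := Real.rpow_pos_of_pos hA0 _
  have hw0 : 0 < w := Real.rpow_pos_of_pos hω0 _
  have hαd : α ^ d = (volume A).toReal := by
    rw [hα, ← Real.rpow_natCast, ← Real.rpow_mul hA0.le, one_div_mul_cancel hd0, Real.rpow_one]
  have hαw : α ≤ w * r := by
    have h1 : (ω * r ^ d) ^ (1 / (d : ℝ)) = w * r := by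
      rw [Real.mul_rpow hω0.le (by positivity), ← Real.rpow_natCast r d, ← Real.rpow_mul hr.le,
        mul_one_div_cancel hd0, Real.rpow_one]
    rw [← h1]
    exact Real.rpow_le_rpow hA0.le hV (by positivity)
  have hT : (α + ε * w) ^ d ≤ (volume (Metric.thickening ε A)).toReal := by
    calc (α + ε * w) ^ d ≤ (((volume (Metric.thickening ε A)).toReal) ^ (1 / (d : ℝ))) ^ d :=
          pow_le_pow_left₀ (by positivity) h d
      _ = (volume (Metric.thickening ε A)).toReal := by
          rw [← Real.rpow_natCast, ← Real.rpow_mul ENNReal.toReal_nonneg,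
            one_div_mul_cancel hd0, Real.rpow_one]
  have hB : (1 + d * ε / r) * (volume A).toReal ≤ (α + ε * w) ^ d := by
    have h1 : (α + ε * w) ^ d = α ^ d * (1 + ε * w / α) ^ d := by
      rw [← mul_pow]; congr 1; field_simp
    rw [h1, hαd, mul_comm]
    apply mul_le_mul_of_nonneg_left _ hA0.le
    have h2 : 1 + (d : ℝ) * (ε * w / α) ≤ (1 + ε * w / α) ^ d :=
      one_add_mul_le_pow (by
        have : 0 ≤ ε * w / α := by positivity
        linarith) d
    refine le_trans ?_ h2
    have h3 : ε / r ≤ ε * w / α := by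
      rw [div_le_div_iff₀ hr hα0]
      calc ε * α ≤ ε * (w * r) := by gcongr
        _ = ε * w * r := by ring
    have h4 : (d : ℝ) * ε / r = d * (ε / r) := by ring
    rw [h4]
    gcongr
  rw [← ENNReal.ofReal_toReal hAfin.ne, ← ENNReal.ofReal_toReal hTfin.ne,
    ← ENNReal.ofReal_mul (by positivity)]
  exact ENNReal.ofReal_le_ofReal (hB.trans hT)

/-- `L¹` isoperimetric inequality: if `u ≥ 0` is `C¹` with compact support and `{u > 0}` has at
most the volume of the ball of radius `r`, then `d ∫ u ≤ r ∫ ‖∇u‖`. -/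
theorem iso_L1 {d : ℕ} (hd : 1 ≤ d) {u : EuclideanSpace ℝ (Fin d) → ℝ} (hu : ContDiff ℝ 1 u)
    (hc : HasCompactSupport u) (h0 : ∀ x, 0 ≤ u x) {r : ℝ} (hr : 0 < r)
    (hV : (volume {x | 0 < u x}).toReal ≤
      (volume (Metric.ball (0 : EuclideanSpace ℝ (Fin d)) 1)).toReal * r ^ d) :
    (d : ℝ) * ∫ x, u x ≤ r * ∫ x, ‖fderiv ℝ u x‖ := by
  have hcont : Continuous u := hu.continuous
  have hdiff : Differentiable ℝ u := hu.differentiable one_ne_zero
  have hDcont : Continuous (fderiv ℝ u) := hu.continuous_fderiv one_ne_zero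
  have hDc : HasCompactSupport (fderiv ℝ u) := hc.fderiv ℝ
  have hui : Integrable u := hcont.integrable_of_hasCompactSupport hc
  have hDi : Integrable (fun x => ‖fderiv ℝ u x‖) := (hDcont.integrable_of_hasCompactSupport hDc).norm
  have hsub : ∀ t : ℝ, 0 ≤ t → {x | t < u x} ⊆ tsupport u := by
    intro t ht x hx
    apply subset_tsupport
    rw [Function.mem_support]
    have : t < u x := hx
    exact (lt_of_le_of_lt ht this).ne'
  have hbd : ∀ t : ℝ, 0 ≤ t → Bornology.IsBounded {x | t < u x} := fun t ht =>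
    hc.isCompact.isBounded.subset (hsub t ht)
  -- the neighbourhood of the support
  set K : Set (EuclideanSpace ℝ (Fin d)) := Metric.thickening 1 (tsupport u) with hK
  have hKo : IsOpen K := Metric.isOpen_thickening
  have hKfin : volume K < ⊤ := hc.isCompact.isBounded.thickening.measure_lt_top
  -- main estimate
  have main : ∀ η : ℝ, 0 < η → (d : ℝ) / r * ∫ x, u x ≤
      (∫ x, ‖fderiv ℝ u x‖) + η * (volume K).toReal := by
    intro η hη
    obtain ⟨δ, hδ, hunif⟩ := Metric.uniformContinuous_iff.mp
      (hDc.uniformContinuous_of_continuous hDcont) η hη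
    set ε : ℝ := min δ 1 with hε_def
    have hε : 0 < ε := by positivity
    have hεδ : ε ≤ δ := min_le_left _ _
    have hε1 : ε ≤ 1 := min_le_right _ _
    let v : EuclideanSpace ℝ (Fin d) → ℝ := fun x =>
      u x + ε * (‖fderiv ℝ u x‖ + η * K.indicator (fun _ => (1 : ℝ)) x)
    have hind0 : ∀ x, 0 ≤ K.indicator (fun _ => (1 : ℝ)) x := fun x =>
      indicator_nonneg (fun _ _ => zero_le_one) x
    have hv0 : ∀ x, 0 ≤ v x := fun x => by
      have h1 := h0 x
      have h2 := hind0 x
      positivity
    have hindint : Integrable (K.indicator (fun _ => (1 : ℝ))) (volume) :=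
      (integrable_indicator_iff hKo.measurableSet).mpr (integrableOn_const hKfin.ne)
    have hvi : Integrable v := hui.add ((hDi.add (hindint.const_mul η)).const_mul ε)
    have hincl : ∀ t : ℝ, 0 < t → Metric.thickening ε {x | t < u x} ⊆ {x | t < v x} := by
      intro t ht x hx
      rw [Metric.mem_thickening_iff] at hx
      obtain ⟨y, hy, hxy⟩ := hx
      have hy' : t < u y := hy
      have hxK : x ∈ K := by
        rw [hK, Metric.mem_thickening_iff]
        exact ⟨y, hsub t ht.le hy, hxy.trans_le hε1⟩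
      have hmv : ‖u y - u x‖ ≤ (‖fderiv ℝ u x‖ + η) * ‖y - x‖ := by
        apply (convex_ball x ε).norm_image_sub_le_of_norm_fderiv_le (𝕜 := ℝ)
        · exact fun z _ => hdiff z
        · intro z hz
          have h1 : dist (fderiv ℝ u z) (fderiv ℝ u x) < η :=
            hunif ((Metric.mem_ball.mp hz).trans_le hεδ)
          rw [dist_eq_norm] at h1
          calc ‖fderiv ℝ u z‖ = ‖fderiv ℝ u x + (fderiv ℝ u z - fderiv ℝ u x)‖ := by
                congr 1; abel
            _ ≤ ‖fderiv ℝ u x‖ + ‖fderiv ℝ u z - fderiv ℝ u x‖ := norm_add_le _ _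
            _ ≤ ‖fderiv ℝ u x‖ + η := by gcongr
        · exact Metric.mem_ball_self hε
        · rw [Metric.mem_ball, dist_comm]; exact hxy
      have h2 : ‖y - x‖ ≤ ε := by
        rw [← dist_eq_norm, dist_comm]; exact hxy.le
      have h3 : u y - u x ≤ (‖fderiv ℝ u x‖ + η) * ε := by
        calc u y - u x ≤ ‖u y - u x‖ := Real.le_norm_self _
          _ ≤ (‖fderiv ℝ u x‖ + η) * ‖y - x‖ := hmv
          _ ≤ (‖fderiv ℝ u x‖ + η) * ε := by gcongr
      change t < u x + ε * (‖fderiv ℝ u x‖ + η * K.indicator (fun _ => (1 : ℝ)) x)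
      rw [indicator_of_mem hxK]
      linarith
    have hlayer : ENNReal.ofReal (1 + d * ε / r) * ∫⁻ x, ENNReal.ofReal (u x) ≤
        ∫⁻ x, ENNReal.ofReal (v x) := by
      rw [lintegral_eq_lintegral_meas_lt volume (Eventually.of_forall h0)
          hcont.measurable.aemeasurable,
        lintegral_eq_lintegral_meas_lt volume (Eventually.of_forall hv0)
          hvi.aestronglyMeasurable.aemeasurable, ← lintegral_const_mul']
      · apply setLIntegral_mono' measurableSet_Ioi
        intro t ht
        have ht' : (0 : ℝ) < t := ht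
        refine le_trans (volume_thickening_ge_mul hd (isOpen_lt continuous_const hcont)
          (hbd t ht'.le) hr hε ?_) (measure_mono (hincl t ht'))
        refine le_trans (ENNReal.toReal_mono (hbd 0 le_rfl).measure_lt_top.ne
          (measure_mono ?_)) hV
        intro x hx
        have : t < u x := hx
        exact ht'.trans this
      · exact ENNReal.ofReal_ne_top
    rw [← ofReal_integral_eq_lintegral_ofReal hui (Eventually.of_forall h0),
      ← ofReal_integral_eq_lintegral_ofReal hvi (Eventually.of_forall hv0),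
      ← ENNReal.ofReal_mul (by positivity),
      ENNReal.ofReal_le_ofReal_iff (integral_nonneg hv0)] at hlayer
    have hvint : ∫ x, v x = (∫ x, u x) + ε * ((∫ x, ‖fderiv ℝ u x‖) + η * (volume K).toReal) := by
      have hi1 : Integrable (fun x => η * K.indicator (fun _ => (1 : ℝ)) x) volume :=
        hindint.const_mul η
      have hi2 : Integrable (fun x => ‖fderiv ℝ u x‖ + η * K.indicator (fun _ => (1 : ℝ)) x)
        volume := hDi.add hi1
      have hi3 : Integrable (fun x => ε * (‖fderiv ℝ u x‖ + η * K.indicator (fun _ => (1 : ℝ)) x))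
        volume := hi2.const_mul ε
      simp only [v]
      rw [integral_add hui hi3, integral_const_mul, integral_add hDi hi1, integral_const_mul,
        integral_indicator hKo.measurableSet]
      simp [measureReal_def]
    rw [hvint] at hlayer
    have h5 : ε * (d / r * ∫ x, u x) ≤
        ε * ((∫ x, ‖fderiv ℝ u x‖) + η * (volume K).toReal) := by
      have h6 : (1 + d * ε / r) * ∫ x, u x = (∫ x, u x) + ε * (d / r * ∫ x, u x) := by ring
      rw [h6] at hlayer
      linarith
    exact le_of_mul_le_mul_left h5 hε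
  have hfin : (d : ℝ) / r * ∫ x, u x ≤ ∫ x, ‖fderiv ℝ u x‖ := by
    apply le_of_forall_pos_le_add
    intro δ hδ
    have h1 := main (δ / ((volume K).toReal + 1)) (by positivity)
    refine h1.trans ?_
    gcongr
    rw [div_mul_eq_mul_div, div_le_iff₀ (by positivity)]
    nlinarith [ENNReal.toReal_nonneg (a := volume K)]
  calc (d : ℝ) * ∫ x, u x = r * (d / r * ∫ x, u x) := by field_simp
    _ ≤ r * ∫ x, ‖fderiv ℝ u x‖ := by gcongr

end Pool.Agent.Lib.H31
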